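import Pool.Agent.H95.ILV.Targets

/-!
# ilv_modules, row SIB: interpolation on a Sidon set by an integrable function
-/

set_option autoImplicit false

open MeasureTheory AddCircle Filter Topology Pool.Agent.H87.Synth Pool.Agent.H23.Synth
  Pool.Agent.H95.ILV

namespace Pool.Agent.H6.ILV

theorem pf_SIB (h : T_SIA) : T_SIB := by
  classical
  intro E hE
  obtain ⟨C, hC, hSIA⟩ := h E hE
  refine ⟨2 * C, by positivity, fun φ b hb hφ hfin => ?_⟩
  have hfinj : ∀ j : ℕ, {n : ℤ | n ∈ E ∧ b * (1 / 2) ^ (j + 1) < ‖φ n‖ ∧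
      ‖φ n‖ ≤ b * (1 / 2) ^ j}.Finite := by
    intro j
    refine (hfin (b * (1 / 2) ^ (j + 1)) (by positivity)).subset ?_
    intro n hn
    exact hn.2.1.le
  have hA : ∀ (j : ℕ) (n : ℤ), n ∈ (hfinj j).toFinset ↔ (n ∈ E ∧ b * (1 / 2) ^ (j + 1) < ‖φ n‖ ∧
      ‖φ n‖ ≤ b * (1 / 2) ^ j) := by
    intro j n
    rw [Set.Finite.mem_toFinset, Set.mem_ofPred_eq]
  have hex : ∀ j : ℕ, ∃ g : L1, ‖g‖ ≤ C * (b * (1 / 2) ^ j) ∧
      (∀ n ∈ (hfinj j).toFinset, coeff g n = φ n) ∧
      ∀ n ∈ E, n ∉ (hfinj j).toFinset → coeff g n = 0 := by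
    intro j
    refine hSIA _ φ (b * (1 / 2) ^ j) ?_ ?_ (by positivity)
    · intro n hn
      exact ((hA j n).1 hn).1
    · intro n hn
      exact ((hA j n).1 hn).2.2
  choose g hg1 hg2 hg3 using hex
  have hgeo : HasSum (fun j : ℕ => C * (b * (1 / 2 : ℝ) ^ j)) (2 * C * b) := by
    have h1 := (hasSum_geometric_two).mul_left (C * b)
    have h2 : (fun j : ℕ => C * b * (1 / 2 : ℝ) ^ j) = fun j : ℕ => C * (b * (1 / 2 : ℝ) ^ j) := by
      funext j; ring
    rw [h2] at h1
    have h3 : C * b * 2 = 2 * C * b := by ring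
    rwa [h3] at h1
  have hsum : Summable g := Summable.of_norm_bounded hgeo.summable hg1
  refine ⟨∑' j, g j, ?_, ?_⟩
  · exact tsum_of_norm_bounded hgeo hg1
  · intro n hn
    have h1 : coeff (∑' j, g j) n = ∑' j, coeff (g j) n := by
      have := (coeffL n).map_tsum hsum
      simpa [coeffL_apply] using this
    rw [h1]
    by_cases h0 : φ n = 0
    · have hz : ∀ j, coeff (g j) n = 0 := by
        intro j
        refine hg3 j n hn ?_
        intro hj
        have := ((hA j n).1 hj).2.1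
        rw [h0, norm_zero] at this
        have hpos : 0 < b * (1 / 2 : ℝ) ^ (j + 1) := by positivity
        linarith
      simp [hz, h0]
    · have hpos : 0 < ‖φ n‖ := norm_pos_iff.2 h0
      have hexj : ∃ j : ℕ, b * (1 / 2 : ℝ) ^ (j + 1) < ‖φ n‖ := by
        obtain ⟨j, hj⟩ := exists_pow_lt_of_lt_one (show 0 < ‖φ n‖ / b by positivity)
          (show (1 / 2 : ℝ) < 1 by norm_num)
        refine ⟨j, ?_⟩
        have h2 : (1 / 2 : ℝ) ^ (j + 1) ≤ (1 / 2) ^ j :=
          pow_le_pow_of_le_one (by norm_num) (by norm_num) (Nat.le_succ j)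
        have h3 : b * (1 / 2 : ℝ) ^ j < ‖φ n‖ := by
          rw [lt_div_iff₀ hb] at hj
          linarith
        have h4 : b * (1 / 2 : ℝ) ^ (j + 1) ≤ b * (1 / 2 : ℝ) ^ j := by gcongr
        linarith
      set j := Nat.find hexj with hjdef
      have hj1 : b * (1 / 2 : ℝ) ^ (j + 1) < ‖φ n‖ := Nat.find_spec hexj
      have hj2 : ‖φ n‖ ≤ b * (1 / 2 : ℝ) ^ j := by
        rcases Nat.eq_zero_or_pos j with hj0 | hj0
        · rw [hj0]; simpa using hφ n
        · have := Nat.find_min hexj (show j - 1 < Nat.find hexj by omega)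
          rw [Nat.sub_add_cancel hj0] at this
          exact not_lt.1 this
      have hmem : n ∈ (hfinj j).toFinset := (hA j n).2 ⟨hn, hj1, hj2⟩
      rw [tsum_eq_single j]
      · exact hg2 j n hmem
      · intro i hi
        refine hg3 i n hn ?_
        intro him
        have him' := (hA i n).1 him
        rcases lt_or_gt_of_ne hi with hlt | hgt
        · exact Nat.find_min hexj (show i < Nat.find hexj from hlt) him'.2.1
        · have h2 : (1 / 2 : ℝ) ^ i ≤ (1 / 2) ^ (j + 1) :=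
            pow_le_pow_of_le_one (by norm_num) (by norm_num) hgt
          have h3 : b * (1 / 2 : ℝ) ^ i ≤ b * (1 / 2) ^ (j + 1) := by gcongr
          linarith [him'.2.2]

end Pool.Agent.H6.ILV
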