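import Pool.Agent.H95.ILV.Targets

/-!
# ilv_modules, row SIC: synthesis if the points outside the trivial classes form a Sidon set
-/

set_option autoImplicit false

open MeasureTheory AddCircle Filter Topology Pool.Agent.H87.Synth Pool.Agent.H23.Synth
  Pool.Agent.H95.ILV

namespace Pool.Agent.H6.ILV

lemma finite_large (f : L1) (ε : ℝ) (hε : 0 < ε) : {n | ε ≤ ‖coeff f n‖}.Finite := by
  obtain ⟨p, hp, hfp⟩ := dense_span_ex f ε hε
  refine (finite_coeff_of_span hp).subset fun n hn => ?_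
  rw [Set.mem_ofPred_eq] at hn ⊢
  intro h0
  have h1 := norm_coeff_le (f - p) n
  rw [coeff_sub, h0, sub_zero] at h1
  linarith

lemma tz_one (L : ℕ) (hL : 1 ≤ L) (n : ℤ) (hn : |(n : ℝ)| ≤ L) : tz L L n = 1 := by
  unfold tz
  have hL' : (0 : ℝ) < L := by exact_mod_cast hL
  have h1 : (1 : ℝ) ≤ ((L : ℝ) + L - |(n : ℝ)|) / L := by
    rw [le_div_iff₀ hL']; linarith
  rw [min_eq_left h1]
  norm_num

lemma tz_zero (L : ℕ) (hL : 1 ≤ L) (n : ℤ) (hn : 2 * (L : ℝ) ≤ |(n : ℝ)|) : tz L L n = 0 := by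
  unfold tz
  have hL' : (0 : ℝ) < L := by exact_mod_cast hL
  have h1 : ((L : ℝ) + L - |(n : ℝ)|) / L ≤ 0 :=
    div_nonpos_of_nonpos_of_nonneg (by linarith) hL'.le
  exact max_eq_left ((min_le_right _ _).trans h1)

theorem pf_SIC (h1 : T_SIB) (h2 : T_VPC) (h3 : T_VPN) : T_SIC := by
  classical
  intro r hE
  apply synthesis_of_approx
  intro f hf hinf ε hε
  change ∀ m n, r m n → coeff f m = coeff f n at hf
  change ∀ n, {m | r n m}.Infinite → coeff f n = 0 at hinf
  set E : Set ℤ := {n | ∃ m, m ≠ n ∧ r n m} with hEdef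
  obtain ⟨C, hC, hSIB⟩ := h1 E hE
  set η : ℝ := ε / (4 * C) with hη
  have hηpos : 0 < η := by positivity
  -- the set A
  have hAfin : {n : ℤ | n ∈ E ∧ η < ‖coeff f n‖}.Finite :=
    (finite_large f η hηpos).subset fun n hn => hn.2.le
  set A : Finset ℤ := hAfin.toFinset with hAdef
  have hA : ∀ n, n ∈ A ↔ (n ∈ E ∧ η < ‖coeff f n‖) := by
    intro n
    rw [hAdef, Set.Finite.mem_toFinset, Set.mem_ofPred_eq]
  set φ : ℤ → ℂ := fun n => if n ∈ E ∧ n ∉ A then coeff f n else 0 with hφ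
  have hφb : ∀ n, ‖φ n‖ ≤ η := by
    intro n
    by_cases hn : n ∈ E ∧ n ∉ A
    · rw [hφ]; simp only [hn, not_false_eq_true, and_self, if_true]
      by_contra hcon
      exact hn.2 ((hA n).2 ⟨hn.1, not_le.1 hcon⟩)
    · rw [hφ]; simp only [hn, if_false, norm_zero]; exact hηpos.le
  have hφfin : ∀ δ : ℝ, 0 < δ → {n | δ ≤ ‖φ n‖}.Finite := by
    intro δ hδ
    refine (finite_large f δ hδ).subset fun n hn => ?_
    rw [Set.mem_ofPred_eq] at hn ⊢
    refine hn.trans ?_
    rw [hφ]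
    by_cases hn' : n ∈ E ∧ n ∉ A
    · simp only [hn', not_false_eq_true, and_self, if_true]; exact le_refl _
    · simp only [hn', if_false, norm_zero]; exact norm_nonneg _
  obtain ⟨g, hg1, hg2⟩ := hSIB φ η hηpos hφb hφfin
  set f' : L1 := f - g with hf'
  -- coefficients of f'
  have hcA : ∀ n ∈ A, coeff f' n = coeff f n := by
    intro n hn
    have hnE := ((hA n).1 hn).1
    rw [hf', coeff_sub, hg2 n hnE]
    have : φ n = 0 := by
      rw [hφ]; simp [hn]
    rw [this, sub_zero]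
  have hcE : ∀ n ∈ E, n ∉ A → coeff f' n = 0 := by
    intro n hn hnA
    rw [hf', coeff_sub, hg2 n hn]
    have : φ n = coeff f n := by
      rw [hφ]; simp [hn, hnA]
    rw [this, sub_self]
  -- approximation of f' by a polynomial
  obtain ⟨q, hq, hfq⟩ := dense_span_ex f' (ε / 8) (by positivity)
  have hqfin := finite_coeff_of_span hq
  obtain ⟨L, hL1, hLA, hLq⟩ : ∃ L : ℕ, 1 ≤ L ∧ (∀ n ∈ A, n.natAbs ≤ L) ∧
      ∀ n, coeff q n ≠ 0 → n.natAbs ≤ L := by
    refine ⟨(A ∪ hqfin.toFinset).sup Int.natAbs + 1, by omega, ?_, ?_⟩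
    · intro n hn
      exact (Finset.le_sup (f := Int.natAbs) (Finset.mem_union_left _ hn)).trans (Nat.le_succ _)
    · intro n hn
      have : n ∈ hqfin.toFinset := by
        rw [Set.Finite.mem_toFinset]; exact hn
      exact (Finset.le_sup (f := Int.natAbs) (Finset.mem_union_right _ this)).trans
        (Nat.le_succ _)
  have hcast : ∀ n : ℤ, n.natAbs ≤ L → |(n : ℝ)| ≤ L := by
    intro n hn
    have : ((n.natAbs : ℕ) : ℝ) ≤ L := by exact_mod_cast hn
    rwa [Nat.cast_natAbs, Int.cast_abs] at this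
  set V : L1 := VP L L with hV
  have hVn : ‖V‖ ≤ 3 := by
    have := h3 L L 0 hL1 (by simp)
    simpa using this
  have hVq : conv q V = q := by
    apply ext_coeff
    intro n
    rw [coeff_conv, hV, h2 L L n hL1]
    by_cases hn : coeff q n = 0
    · rw [hn, zero_mul]
    · rw [tz_one L hL1 n (hcast n (hLq n hn))]
      simp
  -- the polynomial
  let c : ℤ →₀ ℂ := Finsupp.onFinset (Finset.Icc (-(2 * (L : ℤ))) (2 * L))
    (fun n => coeff f' n * ((tz L L n : ℝ) : ℂ)) (by
      intro n hn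
      by_contra hcon
      apply hn
      have h5 : 2 * (L : ℝ) ≤ |(n : ℝ)| := by
        rw [Finset.mem_Icc, not_and_or, not_le, not_le] at hcon
        rcases hcon with h6 | h6
        · have h7 : (n : ℝ) ≤ -(2 * (L : ℝ)) := by exact_mod_cast h6.le
          have := neg_le_abs (n : ℝ)
          linarith
        · have h7 : 2 * (L : ℝ) ≤ (n : ℝ) := by exact_mod_cast h6.le
          exact h7.trans (le_abs_self _)
      rw [tz_zero L hL1 n h5]
      simp)
  have hc : ∀ n, c n = coeff f' n * ((tz L L n : ℝ) : ℂ) := fun n => rfl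
  refine ⟨c, ?_, ?_⟩
  · intro m n hmn
    by_cases hmn' : m = n
    · rw [hmn']
    have hmE : m ∈ E := ⟨n, fun h => hmn' h.symm, hmn⟩
    have hnE : n ∈ E := ⟨m, hmn', r.symm hmn⟩
    by_cases hmA : m ∈ A
    · have hnA : n ∈ A := (hA n).2 ⟨hnE, by rw [← hf m n hmn]; exact ((hA m).1 hmA).2⟩
      rw [hc, hc, hcA m hmA, hcA n hnA, tz_one L hL1 m (hcast m (hLA m hmA)),
        tz_one L hL1 n (hcast n (hLA n hnA)), hf m n hmn]
    · have hnA : n ∉ A := fun hnA => hmA ((hA m).2 ⟨hmE, by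
        rw [hf m n hmn]; exact ((hA n).1 hnA).2⟩)
      rw [hc, hc, hcE m hmE hmA, hcE n hnE hnA, zero_mul, zero_mul]
  · have hp : (∑ n ∈ c.support, c n • (fourierLp 1 n : L1)) = conv f' V := by
      have : (∑ n ∈ c.support, c n • (fourierLp 1 n : L1)) =
          Finsupp.linearCombination ℂ ex c := rfl
      rw [this]
      apply ext_coeff
      intro n
      rw [coeff_linComb, coeff_conv, hV, h2 L L n hL1, hc]
    rw [hp]
    have e1 : f - conv f' V = g + ((f' - q) - conv (f' - q) V) := by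
      have e2 : conv (f' - q) V = conv f' V - q := by
        apply ext_coeff
        intro n
        have := congrArg (fun u => coeff u n) hVq
        simp only [coeff_conv] at this
        rw [coeff_conv, coeff_sub f' q, coeff_sub (conv f' V) q, coeff_conv, sub_mul, this]
      rw [e2, hf']
      abel
    rw [e1]
    have h6 : ‖conv (f' - q) V‖ ≤ ‖f' - q‖ * 3 :=
      (norm_conv_le _ _).trans (by gcongr)
    have h7 : C * η = ε / 4 := by
      rw [hη]; field_simp
    calc ‖g + ((f' - q) - conv (f' - q) V)‖ ≤ ‖g‖ + ‖(f' - q) - conv (f' - q) V‖ := norm_add_le _ _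
      _ ≤ ‖g‖ + (‖f' - q‖ + ‖conv (f' - q) V‖) := by gcongr; exact norm_sub_le _ _
      _ < ε := by linarith

end Pool.Agent.H6.ILV
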